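import Pool.Agent.R272.Liou.Path

/-!
# MP_ae50c7_an: a solution of the Liouville equation on the plane with infinite diameter

Disproof of Q1: there is a real-analytic solution `u` of `Δu + e^{2u} = 0` on the whole plane for
which the conformal metric `g = e^{2u} δ` has `diam_g(ℝ²) = ∞`.
-/

set_option autoImplicit false

open Real Pool.Agent.R272.Conf

namespace Pool.Agent.Results.MP_ae50c7_an.InfiniteDiameter

/-- The diameter of the plane for the conformal metric `e^{2u} (dx² + dy²)`. -/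
noncomputable def diam (u : ℝ × ℝ → ℝ) : ENNReal := ⨆ x, ⨆ y, ENNReal.ofReal (dg u x y)

/-- There is a smooth (indeed real-analytic) solution `u` of `Δu + e^{2u} = 0` on the whole plane
whose conformal metric `g = e^{2u} δ` has infinite diameter. -/
theorem result : ∃ u : ℝ × ℝ → ℝ, (∀ n : WithTop ℕ∞, ContDiff ℝ n u) ∧
    (∀ z, lap u z + exp (2 * u z) = 0) ∧ diam u = ⊤ := by
  obtain ⟨F, hF, hanti⟩ := Pool.Agent.R272.Liou.exists_F
  obtain ⟨c, hc, hline⟩ := Pool.Agent.R272.Liou.exists_c hF hanti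
  refine ⟨Pool.Agent.R272.Liou.uu F, Pool.Agent.R272.Liou.contDiff_uu hF,
    Pool.Agent.R272.Liou.lap_uu hF, ?_⟩
  rw [diam, eq_top_iff]
  refine ENNReal.le_of_forall_nnreal_lt (fun r _ => ?_)
  obtain ⟨n, hn⟩ := exists_nat_gt ((r : ℝ) / (2 * c))
  have h1 := Pool.Agent.R272.Liou.dg_ge hF hanti hline n
  have h2 : (r : ℝ) ≤ 2 * c * n := by
    rw [div_lt_iff₀ (by positivity)] at hn
    linarith
  refine le_trans ?_ (le_iSup₂ (f := fun x y => ENNReal.ofReal (dg (Pool.Agent.R272.Liou.uu F) x y))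
    (0, π) (0, (2 * n + 1) * π))
  rw [← ENNReal.ofReal_coe_nnreal]
  exact ENNReal.ofReal_le_ofReal (h2.trans h1)

end Pool.Agent.Results.MP_ae50c7_an.InfiniteDiameter
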